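import Pool.Agent.Lib.MP_262b4d_al.Solve

/-!
# MP_262b4d_al: a uniform algorithm for the word problem of graph incidence groups of graphs with few
short cycles

`GIG.Grp n E B` (in `Pool.Agent.Lib.MP_262b4d_al.Defs`) is the graph incidence group of the coloured
graph with vertices `0, …, n - 1`, list of edges `E` and list of vertices of colour one `B`.
-/

namespace Pool.Agent.Results.MP_262b4d_al.FewShortCycles

open GIG

/-- There is one computable function that decides the word problem of `Γ(G, b)` for all colourings of
all finite graphs `G` (parallel edges allowed) such that every vertex has at least three neighbours,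
there is no triangle, no vertex with exactly three neighbours lies on a cycle of length 4, and no
cycle `v a p q b` of length 5 has `v`, `a` and `q` with exactly three neighbours. -/
theorem result : ∃ f : Code × Wd → Bool, Computable f ∧
    ∀ (n : ℕ) (E : List (ℕ × ℕ)) (B : List ℕ), Good n E → ∀ w : Wd,
      (f ((n, E, B), w) = true ↔ wval n E B w = 1) :=
  GIG.main

end Pool.Agent.Results.MP_262b4d_al.FewShortCycles
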