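import Pool.Agent.Lib.MP_262b4d_al.QMain

/-!
# MP_262b4d_al: the graph incidence groups of the Petersen graph

`GIG.Grp n E B` is the graph incidence group of the coloured graph with vertices `0, …, n - 1`, list
of edges `E` and list of vertices of colour one `B`; `GIG.GrpU n E B` is its quotient by the central
subgroup generated by `J`, i.e. the uncoloured group (for every `B`).
-/

namespace Pool.Agent.Results.MP_262b4d_al.PetersenGraph

open GIG

/-- One computable function decides the word problem of the graph incidence groups `Γ(P, b)` of the
Petersen graph `P` for all colourings `b`; and the uncoloured group `Γ(P)` has a normal subgroup of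
index 64 which is isomorphic to `ℤ ^ 6`, and embeds in the sixth power of the infinite dihedral
group. -/
theorem result :
    (∃ f : List ℕ × Wd → Bool, Computable f ∧
      ∀ (B : List ℕ) (w : Wd), (f (B, w) = true ↔ wval 10 petersen B w = 1)) ∧
    ∀ B : List ℕ,
      (∃ A : Subgroup (GrpU 10 petersen B), A.Normal ∧ A.index = 64 ∧
        Nonempty (A ≃* Multiplicative (Fin 6 → ℤ))) ∧
      ∃ Φ : GrpU 10 petersen B →* (Fin 6 → DihedralGroup 0), Function.Injective Φ :=
  ⟨GIG.Pet.decidable, GIG.Pet.structure'⟩

end Pool.Agent.Results.MP_262b4d_al.PetersenGraph
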