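import Pool.Agent.Lib.MP_262b4d_al.PRes
import Pool.Agent.Lib.MP_262b4d_al.PCert

/-!
# MP_262b4d_al: one algorithm for the word problem of the graph incidence groups of all planar graphs

`GIG.Grp n E B` is the graph incidence group of the coloured graph with vertices `0, …, n - 1`, list
of edges `E` and list of vertices of colour one `B`. The graph is planar if it has a rotation system
which satisfies Euler's formula (`GIG.Planar`).
-/

namespace Pool.Agent.Results.MP_262b4d_al.PlanarGraphs

open GIG

/-- There is one algorithm (a partial recursive function `f`) which never gives a wrong answer to the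
question whether a word is trivial in a graph incidence group, and which halts for all words in the
graph incidence groups of all planar graphs, with any colouring, any degrees and parallel edges. -/
theorem result : ∃ f : Code × Wd →. Bool, Partrec f ∧
    (∀ (n : ℕ) (E : List (ℕ × ℕ)) (B : List ℕ) (w : Wd), ∀ y ∈ f ((n, E, B), w),
      (y = true ↔ wval n E B w = 1)) ∧
    ∀ (n : ℕ) (E : List (ℕ × ℕ)) (B : List ℕ) (w : Wd), Planar n E → (f ((n, E, B), w)).Dom :=
  ⟨Srch.alg, Srch.partrec_alg, fun _ _ _ _ _ h => Srch.alg_sound h,
    fun _ _ B w hP => Srch.alg_dom (hP.rfin B) w⟩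

end Pool.Agent.Results.MP_262b4d_al.PlanarGraphs
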