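import Pool.Agent.Lib.MP_262b4d_al.RJdet
import Pool.Agent.Lib.MP_262b4d_al.PCert

/-!
# MP_262b4d_al: the word problem of the graph incidence groups of the graphs with an embedding of
face-width at least four in the projective plane

`GIG.Grp n E B` is the graph incidence group of the coloured graph with vertices `0, …, n - 1`, list
of edges `E` and list of vertices of colour one `B`. The embedding is given by an involution of the
flags (`GIG.ProjWide`).
-/

namespace Pool.Agent.Results.MP_262b4d_al.WideProjective

open GIG

/-- There is one algorithm (a partial recursive function `f`) which never gives a wrong answer to the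
question whether a word is trivial in a graph incidence group, and which halts for all words in the
graph incidence groups of all graphs with an embedding of face-width at least four in the projective
plane, with any colouring; and all these groups are residually finite. -/
theorem result : ∃ f : Code × Wd →. Bool, Partrec f ∧
    (∀ (n : ℕ) (E : List (ℕ × ℕ)) (B : List ℕ) (w : Wd), ∀ y ∈ f ((n, E, B), w),
      (y = true ↔ wval n E B w = 1)) ∧
    ∀ (n : ℕ) (E : List (ℕ × ℕ)) (r : Equiv.Perm (Flag E)), ProjWide n E r → ∀ B : List ℕ,
      (∀ w : Wd, (f ((n, E, B), w)).Dom) ∧ RFin (Grp n E B) :=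
  ⟨Srch.alg, Srch.partrec_alg, fun _ _ _ _ _ h => Srch.alg_sound h,
    fun _ _ _ hP B => ⟨fun w => Srch.alg_dom (hP.rfin B) w, hP.rfin B⟩⟩

end Pool.Agent.Results.MP_262b4d_al.WideProjective
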